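import Pool.Agent.Y882.GX.All

/-!
# Rivera's window and all other windows at once, for almost primes

Rivera's conjecture: every even `N > 4` is `p + q` with primes `p`, `q` and `√N < p < 4 √N`. Here `N - p` has at
most three (or two) prime factors, and, outside of ONE small set of even numbers `N`, there are primes `p` of this
kind in the windows `(x / 4, x)` for ALL real `x` between `N ^ θ` and `N / 2` simultaneously, in the expected number
up to a constant. Rivera's window is `x = 4 √N`. The size of the exceptional set is the same as the one which is known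
for the single window `x = N ^ θ`.
-/

set_option autoImplicit false

open Finset Filter

namespace Pool.Agent.Results.MP_b454d1_nt.EveryScale

/-- the variable part of the singular series of the Goldbach problem -/
noncomputable def sing (N : ℕ) : ℝ :=
  ∏ p ∈ N.primeFactors.erase 2, (((p : ℝ) - 1) / ((p : ℝ) - 2))

open Classical in
/-- The number of the primes `p < N` with `x / 4 < p < x` such that `N - p` has at most `r` prime factors (counted
with multiplicity), all of them at least `N ^ ζ / 2`. -/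
noncomputable def inWindow (r : ℕ) (ζ x : ℝ) (N : ℕ) : ℕ :=
  ((range N).filter (fun p : ℕ => p.Prime ∧ x / 4 < p ∧ (p : ℝ) < x ∧
    (N - p).primeFactorsList.length ≤ r ∧
    ∀ q : ℕ, q.Prime → q ∣ (N - p) → (N : ℝ) ^ ζ / 2 ≤ q)).card

/-- There are at least `δ sing N x / (log N) ^ 2` such primes for all real `x` with `N ^ θ ≤ x ≤ N / 2`. -/
def AllWindows (r : ℕ) (θ ζ δ : ℝ) (N : ℕ) : Prop :=
  ∀ x : ℝ, (N : ℝ) ^ θ ≤ x → x ≤ N / 2 → δ * sing N * (x / Real.log N ^ 2) ≤ inWindow r ζ x N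

open Classical in
/-- **All windows at once.** Let `r = 3`, `1 / 2 ≤ τ < 1`, `ζ = 2 τ / 5`, or `r = 2`, `6 / 11 ≤ τ < 1`, `ζ = τ / 4`,
and `0 < θ ≤ 1`. (1) All even `N ≤ X` with at most `C X ^ (2 τ - θ + ε)` exceptions have the property `AllWindows`:
for all `x` between `N ^ θ` and `N / 2` there are at least `δ sing N x / (log N) ^ 2` primes `p` in `(x / 4, x)` such
that `N - p` has at most `r` prime factors, all of them at least `N ^ ζ / 2`. (2) For `r = 3`, `τ = 1 / 2` the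
exponent is `1 - θ + ε`, for `r = 2`, `τ = 6 / 11` it is `12 / 11 - θ + ε`; for `θ = 1 / 2` the windows include the
one of Rivera, `√N < p < 4 √N`, if `N ≥ 64`. -/
theorem result :
    (∀ (r : ℕ) (θ τ ζ ε : ℝ),
      ((r = 3 ∧ 1 / 2 ≤ τ ∧ ζ = 2 / 5 * τ) ∨ (r = 2 ∧ 6 / 11 ≤ τ ∧ ζ = τ / 4)) →
      τ < 1 → 0 < θ → θ ≤ 1 → 0 < ε →
      ∃ δ C : ℝ, 0 < δ ∧ 0 < C ∧ ∀ X : ℕ, 1 ≤ X →
        (((Icc 1 X).filter (fun N : ℕ => Even N ∧ ¬ AllWindows r θ ζ δ N)).card : ℝ) ≤
          C * (X : ℝ) ^ (2 * τ - θ + ε)) ∧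
    ∀ (r : ℕ) (ζ δ : ℝ) (N : ℕ), 64 ≤ N → AllWindows r (1 / 2) ζ δ N →
      4 * δ * sing N * (√(N : ℝ) / Real.log N ^ 2) ≤
        (((range N).filter (fun p : ℕ => p.Prime ∧ √(N : ℝ) < p ∧ (p : ℝ) < 4 * √(N : ℝ) ∧
          (N - p).primeFactorsList.length ≤ r ∧
          ∀ q : ℕ, q.Prime → q ∣ (N - p) → (N : ℝ) ^ ζ / 2 ≤ q)).card : ℝ) := by
  refine ⟨fun r θ τ ζ ε hpar hτ hθ0 hθ1 hε => ?_, fun r ζ δ N hN h => ?_⟩
  · obtain ⟨δ, C, hδ, hC, H⟩ := Pool.Agent.Y882.GX.everyScale r θ τ ζ ε hpar hτ hθ0 hθ1 hε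
    refine ⟨δ, C, hδ, hC, fun X hX => le_trans ?_ (H X hX)⟩
    refine Nat.cast_le.2 (card_le_card fun N hN => ?_)
    rw [mem_filter] at hN ⊢
    obtain ⟨h1, h2, h3⟩ := hN
    unfold AllWindows at h3
    push Not at h3
    obtain ⟨x, h4, h5, h6⟩ := h3
    exact ⟨h1, h2, x, h4, h5, h6⟩
  · have h64 : (64 : ℝ) ≤ N := by exact_mod_cast hN
    have hs : (8 : ℝ) ≤ √(N : ℝ) := by
      rw [show (8 : ℝ) = √64 by rw [show (64 : ℝ) = 8 ^ 2 by norm_num, Real.sqrt_sq (by norm_num)]]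
      exact Real.sqrt_le_sqrt h64
    have hss : √(N : ℝ) * √(N : ℝ) = N := Real.mul_self_sqrt (by positivity)
    have h1 := h (4 * √(N : ℝ)) (by rw [← Real.sqrt_eq_rpow]; linarith) (by nlinarith)
    have e : δ * sing N * (4 * √(N : ℝ) / Real.log N ^ 2) =
        4 * δ * sing N * (√(N : ℝ) / Real.log N ^ 2) := by ring
    rw [e] at h1
    refine h1.trans ?_
    unfold inWindow
    refine Nat.cast_le.2 (card_le_card fun p hp => ?_)
    rw [mem_filter] at hp ⊢
    obtain ⟨a1, a2, a3, a4, a5, a6⟩ := hp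
    exact ⟨a1, a2, by linarith, a4, a5, a6⟩

end Pool.Agent.Results.MP_b454d1_nt.EveryScale
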