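import Pool.Agent.X55.Fam.LinCor

/-!
# Goldbach representations by almost primes with prescribed residues modulo a large prime

Let `P` be a large prime. We consider the representations `N = n + (N - n)` of an even integer `N ≤ P ^ B`, where `B` is
arbitrary, for the integers `n` of an interval `(M, M + H]` in `[0, N]`
* of an ARBITRARY set `A` of residues modulo `P` whose Fourier coefficients are at most `Γ`, in ARBITRARY intervals of
  a length `H ≤ P` with `|A| H ≥ Γ P ^ (1 + ε)`;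
* of a coset of a subgroup `S` of the residues, in the intervals of a length `H ≤ P` with `|S| H ≥ P ^ (3 / 2 + ε)`;
* which are primitive roots of `P`, in the intervals of a length `H` with `P ^ (1 / 2 + ε) ≤ H ≤ P`;
* which are on the modular hyperbola `n m = a` modulo `P` with `n` and `m` in intervals of the lengths `H`, `K ≤ P` with
  `H K ≥ P ^ (3 / 2 + ε)`.
The number of the `n` for which `n` and `N - n` have a bounded number of prime factors, all greater than `P ^ δ`, has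
the expected order of magnitude, the product of the expected number of the `n` and of the local factors
`1 - ν(q) / q` (`ν(q) = 1` or `2` as `q` divides `N` or not) over the primes `q ≤ P`; the number of the `n` for which
both are primes is at most of this order. The constants depend only on `ε`, `B`: everything is uniform in `N`.
The number of the `n` for which neither has a prime factor up to `y` is given by an asymptotic formula, which is also
uniform in `N`.
For example `M` and `H` can be chosen such that `(M, M + H]` is in the window between `√N` and `4 √N`.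

The proof combines a sieve which is uniform in the removed residue classes, incomplete sums, Weil's bound for the
Kloosterman sums and a Moebius formula for primitive roots.
-/

set_option autoImplicit false

namespace Pool.Agent.Results.MP_b454d1_nt.ResiduesModuloPrimes

open Finset

/-- `m ≠ 0` has at most `r` prime factors, counted with multiplicity, all of them greater than `x`. -/
def AlmostPrime (r : ℕ) (x : ℝ) (m : ℕ) : Prop :=
  m ≠ 0 ∧ m.primeFactorsList.length ≤ r ∧ ∀ q : ℕ, q.Prime → q ∣ m → x < q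

/-- the number of the `n` in `(M, M + H]` with the property `R` for which `n` and `N - n` are almost primes -/
noncomputable def almost (N r : ℕ) (x : ℝ) (M H : ℕ) (R : ℕ → Prop) : ℕ :=
  Set.ncard {n : ℕ | M < n ∧ n ≤ M + H ∧ R n ∧ AlmostPrime r x n ∧ AlmostPrime r x (N - n)}

/-- the number of the `n` in `(M, M + H]` with the property `R` for which `n` and `N - n` are primes -/
noncomputable def primes (N M H : ℕ) (R : ℕ → Prop) : ℕ :=
  Set.ncard {n : ℕ | M < n ∧ n ≤ M + H ∧ R n ∧ n.Prime ∧ (N - n).Prime}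

/-- the number of the `n` in `(M, M + H]` with the property `R` for which `n` and `N - n` have no prime factor up to
`y` -/
noncomputable def rough (N y M H : ℕ) (R : ℕ → Prop) : ℕ :=
  Set.ncard {n : ℕ | M < n ∧ n ≤ M + H ∧ R n ∧ ∀ q : ℕ, q.Prime → q ≤ y → ¬ q ∣ n ∧ ¬ q ∣ N - n}

/-- the product over the primes `q ≤ y` of `1 - ν(q) / q`, where `ν(q)` is the number of the residues `n` modulo `q`
with `n = 0` or `n = N` modulo `q` -/
noncomputable def V (N y : ℕ) : ℝ :=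
  ∏ q ∈ (Icc 1 y).filter Nat.Prime, (1 - (Set.ncard {n : ℕ | n < q ∧ (q ∣ n ∨ n ≡ N [MOD q])} : ℝ) / q)

/-- the bounds for the interval `(M, M + H]` and the property `R`, with the expected number `X` -/
def Bounds (N P r : ℕ) (δ c C : ℝ) (B M H : ℕ) (R : ℕ → Prop) (X : ℝ) : Prop :=
  (N ≤ P ^ B → c * (X * V N P) ≤ almost N r ((P : ℝ) ^ δ) M H R) ∧ (primes N M H R : ℝ) ≤ C * (X * V N P)

/-- the asymptotic formula for the interval `(M, M + H]` and the property `R`, with the expected number `X` -/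
def Rough (N : ℕ) (η : ℝ) (M H y : ℕ) (R : ℕ → Prop) (X : ℝ) : Prop :=
  |(rough N y M H R : ℝ) - X * V N y| ≤ η * (X * V N y)

/-- the coefficients of the two forms -/
def ca : Fin 2 → ℤ := ![1, -1]

/-- the constants of the two forms -/
def cb (N : ℕ) : Fin 2 → ℤ := ![0, (N : ℤ)]

lemma ca_ne (i : Fin 2) : ca i ≠ 0 := by
  fin_cases i <;> simp [ca]

lemma v1 (n : ℕ) : (1 * (n : ℤ) + 0).natAbs = n := by simp

lemma v2 {N n : ℕ} (h : n ≤ N) : (-1 * (n : ℤ) + (N : ℤ)).natAbs = N - n := by omega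

lemma V_eq (N y : ℕ) : Pool.Agent.X55.Fam.VL ca (cb N) y = V N y := by
  unfold Pool.Agent.X55.Fam.VL V
  refine prod_congr rfl fun q _ => ?_
  congr 4
  ext n
  have h1 : (∃ i, (q : ℤ) ∣ ca i * (n : ℤ) + cb N i) ↔ (q ∣ n ∨ n ≡ N [MOD q]) := by
    rw [Nat.modEq_iff_dvd]
    constructor
    · rintro ⟨i, hi⟩
      fin_cases i
      · left
        have h2 : (q : ℤ) ∣ 1 * (n : ℤ) + 0 := hi
        rw [one_mul, add_zero] at h2
        exact_mod_cast h2
      · right
        have h2 : (q : ℤ) ∣ -1 * (n : ℤ) + (N : ℤ) := hi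
        have h3 : (N : ℤ) - n = -1 * (n : ℤ) + (N : ℤ) := by ring
        rw [h3]
        exact h2
    · rintro (h | h)
      · refine ⟨0, ?_⟩
        show (q : ℤ) ∣ 1 * (n : ℤ) + 0
        rw [one_mul, add_zero]
        exact_mod_cast h
      · refine ⟨1, ?_⟩
        show (q : ℤ) ∣ -1 * (n : ℤ) + (N : ℤ)
        have h3 : -1 * (n : ℤ) + (N : ℤ) = (N : ℤ) - n := by ring
        rw [h3]
        exact h
  show (n < q ∧ _) ↔ (n < q ∧ _)
  rw [h1]

lemma all2 {N n : ℕ} (h : n ≤ N) (Q : ℕ → Prop) :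
    (∀ i, Q (ca i * (n : ℤ) + cb N i).natAbs) ↔ (Q n ∧ Q (N - n)) := by
  rw [Fin.forall_fin_two]
  have e1 : (ca 0 * (n : ℤ) + cb N 0).natAbs = n := v1 n
  have e2 : (ca 1 * (n : ℤ) + cb N 1).natAbs = N - n := v2 h
  rw [e1, e2]

lemma conv {N P r : ℕ} {δ c C : ℝ} {B M H : ℕ} {R : ℕ → Prop} {X : ℝ} (hP : 1 ≤ P) (hN : M + H ≤ N)
    (h : Pool.Agent.X55.Fam.BothL ca (cb N) P r δ c C B M H R X) : Bounds N P r δ c C B M H R X := by
  obtain ⟨h1, h2⟩ := h
  unfold Pool.Agent.X55.Fam.LoT at h1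
  unfold Pool.Agent.X55.Fam.UpL at h2
  rw [V_eq] at h1 h2
  have s1 : {n : ℕ | M < n ∧ n ≤ M + H ∧ R n ∧ ∀ i, Pool.Agent.X55.Fam.Good r ((P : ℝ) ^ δ)
      (ca i * (n : ℤ) + cb N i).natAbs} =
      {n : ℕ | M < n ∧ n ≤ M + H ∧ R n ∧ AlmostPrime r ((P : ℝ) ^ δ) n ∧ AlmostPrime r ((P : ℝ) ^ δ) (N - n)} := by
    ext n
    refine and_congr_right fun _ => and_congr_right fun h3 => and_congr_right fun _ => ?_
    exact all2 (h3.trans hN) (AlmostPrime r ((P : ℝ) ^ δ))
  have s2 : {n : ℕ | M < n ∧ n ≤ M + H ∧ R n ∧ ∀ i, (ca i * (n : ℤ) + cb N i).natAbs.Prime} =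
      {n : ℕ | M < n ∧ n ≤ M + H ∧ R n ∧ n.Prime ∧ (N - n).Prime} := by
    ext n
    refine and_congr_right fun _ => and_congr_right fun h3 => and_congr_right fun _ => ?_
    exact all2 (h3.trans hN) Nat.Prime
  rw [s1] at h1
  rw [s2] at h2
  have hPB : 1 ≤ P ^ B := Nat.one_le_pow _ _ hP
  refine ⟨fun hB => h1 (hN.trans hB) (fun i => ?_) (fun i => ?_), h2⟩
  · fin_cases i
    · exact hPB
    · exact hPB
  · fin_cases i
    · exact Nat.zero_le _
    · exact hB

lemma convA {N : ℕ} {η : ℝ} {M H y : ℕ} {R : ℕ → Prop} {X : ℝ} (hN : M + H ≤ N)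
    (h : Pool.Agent.X55.Fam.AsL ca (cb N) η M H y R X) : Rough N η M H y R X := by
  unfold Pool.Agent.X55.Fam.AsL at h
  rw [V_eq] at h
  have s1 : {n : ℕ | M < n ∧ n ≤ M + H ∧ R n ∧ ∀ q : ℕ, q.Prime → q ≤ y → ∀ i, ¬ (q : ℤ) ∣ ca i * (n : ℤ) + cb N i} =
      {n : ℕ | M < n ∧ n ≤ M + H ∧ R n ∧ ∀ q : ℕ, q.Prime → q ≤ y → ¬ q ∣ n ∧ ¬ q ∣ N - n} := by
    ext n
    refine and_congr_right fun _ => and_congr_right fun h3 => and_congr_right fun _ => forall_congr' fun q => ?_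
    refine imp_congr_right fun _ => imp_congr_right fun _ => ?_
    rw [← all2 (h3.trans hN) (fun m => ¬ q ∣ m)]
    refine forall_congr' fun i => ?_
    rw [Int.natCast_dvd]
  rw [s1] at h
  exact h

lemma adm {N : ℕ} (hN : Even N) (q : ℕ) (hq : q.Prime) : ∃ n : ℕ, ∀ i, ¬ (q : ℤ) ∣ ca i * (n : ℤ) + cb N i := by
  have key : ∃ n : ℕ, ¬ (q : ℤ) ∣ 1 * (n : ℤ) + 0 ∧ ¬ (q : ℤ) ∣ -1 * (n : ℤ) + (N : ℤ) := by
    have h1 : ¬ (q : ℤ) ∣ 1 := by
      intro h
      have := Int.eq_one_of_dvd_one (by positivity) h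
      exact hq.one_lt.ne' (by exact_mod_cast this)
    by_cases h : (q : ℤ) ∣ -1 * ((1 : ℕ) : ℤ) + (N : ℤ)
    · refine ⟨2, fun h2 => ?_, fun h2 => ?_⟩
      · have h3 : (q : ℤ) ∣ 2 := by simpa using h2
        have h4 : q ∣ 2 := by exact_mod_cast h3
        have h5 : q = 2 := (Nat.prime_dvd_prime_iff_eq hq Nat.prime_two).1 h4
        subst h5
        obtain ⟨t, ht⟩ := hN
        push_cast at h
        omega
      · apply h1
        have := dvd_sub h h2
        push_cast at this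
        ring_nf at this
        simpa using this
    · refine ⟨1, fun h2 => h1 ?_, h⟩
      simpa using h2
  obtain ⟨n, h1, h2⟩ := key
  refine ⟨n, fun i => ?_⟩
  fin_cases i
  · exact h1
  · exact h2

theorem result :
    (∀ ε : ℝ, 0 < ε → ∀ B : ℕ, ∃ (r : ℕ) (δ c C : ℝ) (P₀ : ℕ), 0 < δ ∧ 0 < c ∧ 0 < C ∧
      ∀ P : ℕ, P₀ ≤ P → ∀ [Fact P.Prime] (N : ℕ), Even N →
      -- sets with small Fourier coefficients
      (∀ (A : Finset (ZMod P)) (Γ : ℝ), 1 ≤ Γ →
        (∀ a : ZMod P, a ≠ 0 → ‖∑ x ∈ A, (ZMod.stdAddChar (a * x) : ℂ)‖ ≤ Γ) →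
        ∀ M H : ℕ, H ≤ P → M + H ≤ N → Γ * (P : ℝ) ^ (1 + ε) ≤ A.card * H →
        Bounds N P r δ c C B M H (fun n => (n : ZMod P) ∈ A) (A.card * H / P)) ∧
      -- cosets of subgroups
      (∀ (S : Subgroup (ZMod P)ˣ) (b : (ZMod P)ˣ) (M H : ℕ), H ≤ P → M + H ≤ N → 
        (P : ℝ) ^ (3 / 2 + ε) ≤ (Nat.card S : ℝ) * H →
        Bounds N P r δ c C B M H (fun n => ∃ g ∈ S, (n : ZMod P) = (b : ZMod P) * (g : ZMod P))
          (Nat.card S * H / P)) ∧
      -- primitive roots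
      (∀ M H : ℕ, H ≤ P → M + H ≤ N → (P : ℝ) ^ (1 / 2 + ε) ≤ H →
        Bounds N P r δ c C B M H (fun n => orderOf (n : ZMod P) = P - 1) ((P - 1).totient * H / P)) ∧
      -- modular hyperbolas
      (∀ a : ZMod P, a ≠ 0 → ∀ M H L K : ℕ, H ≤ P → K ≤ P → M + H ≤ N → (P : ℝ) ^ (3 / 2 + ε) ≤ (H : ℝ) * K →
        Bounds N P r δ c C B M H (fun n => ∃ m : ℕ, L < m ∧ m ≤ L + K ∧ (n : ZMod P) * (m : ZMod P) = a)
          (K * H / P))) ∧
    -- the asymptotic formula
    (∀ ε η : ℝ, 0 < ε → 0 < η → ∃ (δ : ℝ) (P₀ : ℕ), 0 < δ ∧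
      ∀ P : ℕ, P₀ ≤ P → ∀ [Fact P.Prime] (N : ℕ), Even N →
      ∀ (A : Finset (ZMod P)) (Γ : ℝ), 1 ≤ Γ →
      (∀ a : ZMod P, a ≠ 0 → ‖∑ x ∈ A, (ZMod.stdAddChar (a * x) : ℂ)‖ ≤ Γ) →
      ∀ M H : ℕ, H ≤ P → M + H ≤ N → Γ * (P : ℝ) ^ (1 + ε) ≤ A.card * H → ∀ y : ℕ, 3 ≤ y → (y : ℝ) ≤ (P : ℝ) ^ δ →
      Rough N η M H y (fun n => (n : ZMod P) ∈ A) (A.card * H / P)) := by
  constructor
  · intro ε hε B
    obtain ⟨r, δ, c, C, P₀, hδ, hc, hC, h⟩ := Pool.Agent.X55.Fam.res_lin 2 (by norm_num) ε hε B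
    refine ⟨r, δ, c, C, max P₀ 1, hδ, hc, hC, ?_⟩
    intro P hP _ N hN
    have hP1 : 1 ≤ P := (le_max_right _ _).trans hP
    obtain ⟨h1, h2, h3, h4⟩ := h P ((le_max_left _ _).trans hP) ca (cb N) ca_ne (adm hN)
    exact ⟨fun A Γ hΓ hA M H hH hMN hAH => conv hP1 hMN (h1 A Γ hΓ hA M H hH hAH),
      fun S b M H hH hMN hGH => conv hP1 hMN (h2 S b M H hH hGH),
      fun M H hH hMN hPH => conv hP1 hMN (h3 M H hH hPH),
      fun a ha M H L K hH hK hMN hHK => conv hP1 hMN (h4 a ha M H L K hH hK hHK)⟩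
  · intro ε η hε hη
    obtain ⟨δ, P₀, hδ, h⟩ := Pool.Agent.X55.Fam.res_linA 2 (by norm_num) ε η hε hη
    refine ⟨δ, P₀, hδ, ?_⟩
    intro P hP _ N hN A Γ hΓ hA M H hH hMN hAH y hy hyP
    exact convA hMN (h P hP ca (cb N) (adm hN) A Γ hΓ hA M H hH hAH y hy hyP)

end Pool.Agent.Results.MP_b454d1_nt.ResiduesModuloPrimes
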