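import Pool.Agent.X10.SP.Lin3

set_option autoImplicit false

/-!
# Rivera's window: the first and the last primes of `(√N, 4√N)` can all fail

For every `δ > 0` there is `c > 0` such that every interval `(Y, Y + Y ^ δ]` with `Y` large contains an even `N`, in any
prescribed class modulo a fixed even `q`, for which `N - p` is composite for the first and for the last
`c (φ(q) / q) log N log log N` primes `p` of `(√N, 4√N)`, and at once for as many further prescribed numbers `p`.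

The proof is an application of the theorem on composite values of linear forms of helper10
(`Pool.Agent.X10.SP.Lin.lin`): for `N` in a short interval the window `(√N, 4√N)` hardly moves.
-/

namespace Pool.Agent.Results.MP_b454d1_nt.RunsAtTheEndpoints

open Finset Filter

/-- the number of primes `r` with `√N < r < p` -/
noncomputable def before (N p : ℕ) : ℕ := Set.ncard {r : ℕ | r.Prime ∧ Real.sqrt N < r ∧ r < p}

/-- the number of primes `r` with `p < r < 4 √N` -/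
noncomputable def after (N p : ℕ) : ℕ := Set.ncard {r : ℕ | r.Prime ∧ p < r ∧ (r : ℝ) < 4 * Real.sqrt N}

open Classical in
lemma seg_left (a K : ℝ) (T : ℕ) (hK : 0 ≤ K) :
    (((range T).filter (fun p : ℕ => p.Prime ∧ a < p ∧
      (((range p).filter (fun r : ℕ => r.Prime ∧ a < r)).card : ℝ) < K)).card : ℝ) ≤ K + 1 := by
  obtain ⟨B, hB⟩ : ∃ B : Finset ℕ, B = (range T).filter (fun p : ℕ => p.Prime ∧ a < p ∧
      (((range p).filter (fun r : ℕ => r.Prime ∧ a < r)).card : ℝ) < K) := ⟨_, rfl⟩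
  rw [← hB]
  rcases B.eq_empty_or_nonempty with h | h
  · rw [h, card_empty, Nat.cast_zero]
    linarith
  · have hm := B.max'_mem h
    obtain ⟨p, hp⟩ : ∃ p, p = B.max' h := ⟨_, rfl⟩
    rw [← hp] at hm
    have h1 : B.erase p ⊆ (range p).filter (fun r : ℕ => r.Prime ∧ a < r) := by
      intro r hr
      rw [mem_erase] at hr
      have h2 : r ≤ p := by rw [hp]; exact B.le_max' r hr.2
      have h3 := hr.2
      rw [hB, mem_filter] at h3
      rw [mem_filter, mem_range]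
      exact ⟨lt_of_le_of_ne h2 hr.1, h3.2.1, h3.2.2.1⟩
    have h4 := card_le_card h1
    have h5 : B.card = (B.erase p).card + 1 := (card_erase_add_one hm).symm
    have h6 := hm
    rw [hB, mem_filter] at h6
    have h7 : ((B.erase p).card : ℝ) ≤ (((range p).filter (fun r : ℕ => r.Prime ∧ a < r)).card : ℝ) := by
      exact_mod_cast h4
    rw [h5]
    push_cast
    linarith [h6.2.2.2]

open Classical in
lemma seg_right (U K : ℝ) (T : ℕ) (hK : 0 ≤ K) :
    (((range T).filter (fun p : ℕ => p.Prime ∧ (p : ℝ) < U ∧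
      (((Ioo p T).filter (fun r : ℕ => r.Prime ∧ (r : ℝ) < U)).card : ℝ) < K)).card : ℝ) ≤ K + 1 := by
  obtain ⟨B, hB⟩ : ∃ B : Finset ℕ, B = (range T).filter (fun p : ℕ => p.Prime ∧ (p : ℝ) < U ∧
      (((Ioo p T).filter (fun r : ℕ => r.Prime ∧ (r : ℝ) < U)).card : ℝ) < K) := ⟨_, rfl⟩
  rw [← hB]
  rcases B.eq_empty_or_nonempty with h | h
  · rw [h, card_empty, Nat.cast_zero]
    linarith
  · have hm := B.min'_mem h
    obtain ⟨p, hp⟩ : ∃ p, p = B.min' h := ⟨_, rfl⟩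
    rw [← hp] at hm
    have h1 : B.erase p ⊆ (Ioo p T).filter (fun r : ℕ => r.Prime ∧ (r : ℝ) < U) := by
      intro r hr
      rw [mem_erase] at hr
      have h2 : p ≤ r := by rw [hp]; exact B.min'_le r hr.2
      have h3 := hr.2
      rw [hB, mem_filter, mem_range] at h3
      rw [mem_filter, mem_Ioo]
      exact ⟨⟨lt_of_le_of_ne h2 (Ne.symm hr.1), h3.1⟩, h3.2.1, h3.2.2.1⟩
    have h4 := card_le_card h1
    have h5 : B.card = (B.erase p).card + 1 := (card_erase_add_one hm).symm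
    have h6 := hm
    rw [hB, mem_filter] at h6
    have h7 : ((B.erase p).card : ℝ) ≤ (((Ioo p T).filter (fun r : ℕ => r.Prime ∧ (r : ℝ) < U)).card : ℝ) := by
      exact_mod_cast h4
    rw [h5]
    push_cast
    linarith [h6.2.2.2]

open Classical in
lemma before_ge (Y N p : ℕ) (h1 : Real.sqrt N ≤ Real.sqrt Y + 1) :
    ((range p).filter (fun r : ℕ => r.Prime ∧ Real.sqrt Y < r)).card ≤ before N p + 1 := by
  have hfin : {r : ℕ | r.Prime ∧ Real.sqrt N < r ∧ r < p}.Finite :=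
    (Set.finite_Iio p).subset fun r hr => hr.2.2
  have hb : before N p = ((range p).filter (fun r : ℕ => r.Prime ∧ Real.sqrt N < r)).card := by
    unfold before
    rw [← Set.ncard_coe_finset]
    congr 1
    ext r
    simp only [Set.mem_setOf_eq, coe_filter, mem_range]
    tauto
  rw [hb]
  have h2 : ((range p).filter (fun r : ℕ => Real.sqrt Y < r ∧ (r : ℝ) ≤ Real.sqrt Y + 1)).card ≤ 1 := by
    rw [card_le_one]
    intro x hx y hy
    rw [mem_filter] at hx hy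
    by_contra hne
    rcases lt_or_gt_of_ne hne with h | h
    · have : (x : ℝ) + 1 ≤ y := by exact_mod_cast h
      linarith [hx.2.1, hy.2.2]
    · have : (y : ℝ) + 1 ≤ x := by exact_mod_cast h
      linarith [hy.2.1, hx.2.2]
  refine le_trans ?_ (Nat.add_le_add_left h2 _)
  refine le_trans (card_le_card ?_) (card_union_le _ _)
  intro r hr
  rw [mem_filter] at hr
  rw [mem_union, mem_filter, mem_filter]
  by_cases h3 : Real.sqrt N < r
  · exact Or.inl ⟨hr.1, hr.2.1, h3⟩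
  · exact Or.inr ⟨hr.1, hr.2.2, (not_lt.1 h3).trans h1⟩

open Classical in
lemma after_ge (Y N p T : ℕ) (h0 : Real.sqrt Y ≤ Real.sqrt N) :
    ((Ioo p T).filter (fun r : ℕ => r.Prime ∧ (r : ℝ) < 4 * Real.sqrt Y + 4)).card ≤ after N p + 4 := by
  have hfin : {r : ℕ | r.Prime ∧ p < r ∧ (r : ℝ) < 4 * Real.sqrt N}.Finite :=
    (Set.finite_Iio (⌈4 * Real.sqrt N⌉₊)).subset fun r hr => Nat.lt_ceil.2 hr.2.2
  have h2 : (Ico ⌈4 * Real.sqrt N⌉₊ (⌈4 * Real.sqrt N⌉₊ + 4)).card ≤ 4 := by simp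
  have h3 : ((Ioo p T).filter (fun r : ℕ => r.Prime ∧ (r : ℝ) < 4 * Real.sqrt N)).card ≤ after N p := by
    unfold after
    rw [← Set.ncard_coe_finset]
    apply Set.ncard_le_ncard _ hfin
    intro r hr
    simp only [coe_filter, mem_Ioo, Set.mem_setOf_eq] at hr ⊢
    exact ⟨hr.2.1, hr.1.1, hr.2.2⟩
  refine le_trans ?_ (Nat.add_le_add h3 h2)
  refine le_trans (card_le_card ?_) (card_union_le _ _)
  intro r hr
  rw [mem_filter] at hr
  rw [mem_union, mem_filter, mem_Ico]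
  by_cases h4 : (r : ℝ) < 4 * Real.sqrt N
  · exact Or.inl ⟨hr.1, hr.2.1, h4⟩
  · refine Or.inr ⟨Nat.ceil_le.2 (not_lt.1 h4), ?_⟩
    have h5 : (r : ℝ) < ⌈4 * Real.sqrt N⌉₊ + 4 := by
      have := Nat.le_ceil (4 * Real.sqrt N)
      linarith [hr.2.2]
    exact_mod_cast h5

open Classical in
/-- For every `δ > 0` there is `c > 0` such that for every even `q > 0` and all large `Y`, for every even `r` and all sets
`A` of at most `c (φ(q) / q) log Y log log Y` numbers `a ≤ Y` there is an even `N ≡ r` modulo `q` with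
`Y < N ≤ Y + Y ^ δ` such that `N - a` is not prime for all `a ∈ A`, and `N - p` is not prime for all primes `p` with
`√N < p < 4 √N` for which fewer than `c (φ(q) / q) log N log log N` primes lie in `(√N, p)`, or fewer than so many
primes lie in `(p, 4 √N)`. -/
theorem result (δ : ℝ) (hδ : 0 < δ) : ∃ c : ℝ, 0 < c ∧ ∀ q : ℕ, 0 < q → Even q → ∃ Y₀ : ℕ, ∀ Y : ℕ, Y₀ ≤ Y →
    ∀ r : ℕ, Even r → ∀ A : Finset ℕ, (∀ a ∈ A, a ≤ Y) →
    (A.card : ℝ) ≤ c * ((q.totient : ℝ) / q) * (Real.log Y * Real.log (Real.log Y)) →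
    ∃ N : ℕ, Even N ∧ N ≡ r [MOD q] ∧ Y < N ∧ (N : ℝ) ≤ Y + (Y : ℝ) ^ δ ∧
      (∀ a ∈ A, ¬ (N - a).Prime) ∧
      ∀ p : ℕ, p.Prime → Real.sqrt N < p → (p : ℝ) < 4 * Real.sqrt N →
        ((before N p : ℝ) < c * ((q.totient : ℝ) / q) * (Real.log N * Real.log (Real.log N)) ∨
          (after N p : ℝ) < c * ((q.totient : ℝ) / q) * (Real.log N * Real.log (Real.log N))) →
        ¬ (N - p).Prime := by
  obtain ⟨c₀, hc₀, X₀, hlin⟩ := Pool.Agent.X10.SP.Lin.lin
  obtain ⟨d, hd⟩ : ∃ d : ℝ, d = min δ (1 / 4) := ⟨_, rfl⟩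
  have hd0 : 0 < d := by rw [hd]; exact lt_min hδ (by norm_num)
  have hdδ : d ≤ δ := by rw [hd]; exact min_le_left _ _
  have hd4 : d ≤ 1 / 4 := by rw [hd]; exact min_le_right _ _
  obtain ⟨c, hc⟩ : ∃ c : ℝ, c = c₀ * d / 48 := ⟨_, rfl⟩
  have hc0 : 0 < c := by rw [hc]; positivity
  refine ⟨c, hc0, fun q hq hqe => ?_⟩
  have hqr : (0 : ℝ) < q := by exact_mod_cast hq
  obtain ⟨κ, hκ⟩ : ∃ κ : ℝ, κ = (q.totient : ℝ) / q := ⟨_, rfl⟩
  have hφ : (0 : ℝ) < q.totient := by exact_mod_cast Nat.totient_pos.2 hq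
  have hκ0 : 0 < κ := by rw [hκ]; positivity
  rw [← hκ]
  have tlog : Tendsto (fun n : ℕ => Real.log (n : ℝ)) atTop atTop :=
    Real.tendsto_log_atTop.comp tendsto_natCast_atTop_atTop
  have tloglog : Tendsto (fun n : ℕ => Real.log (Real.log (n : ℝ))) atTop atTop := Real.tendsto_log_atTop.comp tlog
  have tpow : ∀ a : ℝ, 0 < a → Tendsto (fun n : ℕ => (n : ℝ) ^ a) atTop atTop := fun a ha =>
    (tendsto_rpow_atTop ha).comp tendsto_natCast_atTop_atTop
  obtain ⟨Y₁, hY₁⟩ := eventually_atTop.1 ((tlog.eventually_ge_atTop (max 4 (16 / d ^ 2))).and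
    ((tloglog.eventually_ge_atTop (max 1 (max (2 * Real.log (2 / d)) (128 / (κ * c₀ * d))))).and
    ((tpow (d / 2) (by positivity)).eventually_ge_atTop (max (3 * q) (X₀ + 3)))))
  refine ⟨max Y₁ (max q 100), fun Y hY r hr A hA hAc => ?_⟩
  obtain ⟨g1, g2, g3⟩ := hY₁ Y ((le_max_left _ _).trans hY)
  have hYq : q ≤ Y := (le_max_left _ _).trans ((le_max_right _ _).trans hY)
  have hY100 : 100 ≤ Y := (le_max_right _ _).trans ((le_max_right _ _).trans hY)
  have hY100r : (100 : ℝ) ≤ Y := by exact_mod_cast hY100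
  have hY0 : (0 : ℝ) < Y := by linarith
  obtain ⟨L, hL⟩ : ∃ L : ℝ, L = Real.log Y := ⟨_, rfl⟩
  obtain ⟨L2, hL2⟩ : ∃ L2 : ℝ, L2 = Real.log (Real.log Y) := ⟨_, rfl⟩
  rw [← hL] at g1
  rw [← hL2] at g2
  have g1a : 4 ≤ L := (le_max_left _ _).trans g1
  have g1b : 16 / d ^ 2 ≤ L := (le_max_right _ _).trans g1
  have g2a : 1 ≤ L2 := (le_max_left _ _).trans g2
  have g2b : 2 * Real.log (2 / d) ≤ L2 := (le_max_left _ _).trans ((le_max_right _ _).trans g2)
  have g2c : 128 / (κ * c₀ * d) ≤ L2 := (le_max_right _ _).trans ((le_max_right _ _).trans g2)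
  have g3a : 3 * (q : ℝ) ≤ (Y : ℝ) ^ (d / 2) := (le_max_left _ _).trans g3
  have g3b : (X₀ : ℝ) + 3 ≤ (Y : ℝ) ^ (d / 2) := (le_max_right _ _).trans g3
  -- the length
  obtain ⟨P, hP⟩ : ∃ P : ℝ, P = (Y : ℝ) ^ (d / 2) := ⟨_, rfl⟩
  rw [← hP] at g3a g3b
  have hP2 : (Y : ℝ) ^ d = P * P := by
    rw [hP, ← Real.rpow_add hY0]
    congr 1
    ring
  have hP3 : 3 ≤ P := by
    have : (0 : ℝ) ≤ X₀ := Nat.cast_nonneg _
    linarith
  have hq1 : (1 : ℝ) ≤ q := by exact_mod_cast hq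
  obtain ⟨X, hX⟩ : ∃ X : ℕ, X = ⌊(Y : ℝ) ^ d / q⌋₊ - 1 := ⟨_, rfl⟩
  have hquo : 3 * P ≤ (Y : ℝ) ^ d / q := by
    rw [hP2, le_div_iff₀ hqr]
    nlinarith
  have hfl : (Y : ℝ) ^ d / q < (⌊(Y : ℝ) ^ d / q⌋₊ : ℝ) + 1 := Nat.lt_floor_add_one _
  have hfl1 : 1 ≤ ⌊(Y : ℝ) ^ d / q⌋₊ := by
    rw [Nat.one_le_floor_iff]
    linarith
  have hXr : (X : ℝ) = (⌊(Y : ℝ) ^ d / q⌋₊ : ℝ) - 1 := by
    rw [hX, Nat.cast_sub hfl1, Nat.cast_one]
  have hXP : P ≤ X := by rw [hXr]; linarith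
  have hXup : (X : ℝ) * q ≤ (Y : ℝ) ^ d - q := by
    have h1 : (⌊(Y : ℝ) ^ d / q⌋₊ : ℝ) ≤ (Y : ℝ) ^ d / q := Nat.floor_le (by positivity)
    rw [hXr]
    have h2 : (⌊(Y : ℝ) ^ d / q⌋₊ : ℝ) * q ≤ (Y : ℝ) ^ d := by
      rwa [le_div_iff₀ hqr] at h1
    linarith
  have hXX₀ : X₀ ≤ X := by
    have : (X₀ : ℝ) ≤ X := by linarith
    exact_mod_cast this
  have hX0 : (0 : ℝ) < X := by linarith
  have hlogX : d / 2 * L ≤ Real.log X := by
    rw [hL, ← Real.log_rpow hY0, ← hP]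
    exact Real.log_le_log (by linarith) hXP
  have hdL : 0 < d / 2 * L := by positivity
  have hloglogX : L2 / 2 ≤ Real.log (Real.log X) := by
    have h1 : Real.log (d / 2 * L) ≤ Real.log (Real.log X) := Real.log_le_log hdL hlogX
    rw [Real.log_mul (by positivity) (by positivity)] at h1
    have h2 : Real.log (2 / d) = - Real.log (d / 2) := by
      rw [← Real.log_inv, inv_div]
    have h3 : Real.log L = L2 := by rw [hL, hL2]
    rw [h3] at h1
    linarith
  have hexp : (Y : ℝ) ≤ Real.exp (Real.log X ^ 2) := by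
    rw [← Real.log_le_iff_le_exp hY0, ← hL]
    have h1 : (d / 2 * L) ^ 2 ≤ Real.log X ^ 2 := pow_le_pow_left₀ hdL.le hlogX 2
    refine le_trans ?_ h1
    have h2 : 16 ≤ d ^ 2 * L := by
      rw [div_le_iff₀ (by positivity)] at g1b
      linarith
    have h3 : (d / 2 * L) ^ 2 = d ^ 2 * L * L / 4 := by ring
    rw [h3]
    nlinarith
  -- the sets
  obtain ⟨T, hT⟩ : ∃ T : ℕ, T = ⌈4 * Real.sqrt Y + 4⌉₊ + 1 := ⟨_, rfl⟩
  obtain ⟨K, hK⟩ : ∃ K : ℝ, K = 2 * c * κ * (L * L2) := ⟨_, rfl⟩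
  have hK0 : 0 ≤ K := by rw [hK]; positivity
  obtain ⟨B1, hB1⟩ : ∃ B : Finset ℕ, B = (range T).filter (fun p : ℕ => p.Prime ∧ Real.sqrt Y < p ∧
      (((range p).filter (fun r : ℕ => r.Prime ∧ Real.sqrt Y < r)).card : ℝ) < K + 1) := ⟨_, rfl⟩
  obtain ⟨B2, hB2⟩ : ∃ B : Finset ℕ, B = (range T).filter (fun p : ℕ => p.Prime ∧ (p : ℝ) < 4 * Real.sqrt Y + 4 ∧
      (((Ioo p T).filter (fun r : ℕ => r.Prime ∧ (r : ℝ) < 4 * Real.sqrt Y + 4)).card : ℝ) < K + 4) := ⟨_, rfl⟩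
  have hc1 : (B1.card : ℝ) ≤ K + 2 := by
    have := seg_left (Real.sqrt Y) (K + 1) T (by linarith)
    rw [← hB1] at this
    linarith
  have hc2 : (B2.card : ℝ) ≤ K + 5 := by
    have := seg_right (4 * Real.sqrt Y + 4) (K + 4) T (by linarith)
    rw [← hB2] at this
    linarith
  have hsq : Real.sqrt Y ≤ Y / 10 := by
    rw [Real.sqrt_le_left (by positivity)]
    nlinarith
  have hTY : T ≤ Y := by
    have h1 : (⌈4 * Real.sqrt Y + 4⌉₊ : ℝ) < 4 * Real.sqrt Y + 4 + 1 := Nat.ceil_lt_add_one (by positivity)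
    have h2 : (T : ℝ) ≤ Y := by
      rw [hT]
      push_cast
      linarith
    exact_mod_cast h2
  obtain ⟨F, hF⟩ : ∃ F : Finset ℕ, F = A ∪ (B1 ∪ B2) := ⟨_, rfl⟩
  have hFY : ∀ a ∈ F, a ≤ Y := by
    intro a ha
    rw [hF, mem_union, mem_union] at ha
    rcases ha with h | h | h
    · exact hA a h
    · rw [hB1, mem_filter, mem_range] at h
      omega
    · rw [hB2, mem_filter, mem_range] at h
      omega
  have hFc : (F.card : ℝ) ≤ 5 / 2 * K + 7 := by
    have h1 : F.card ≤ A.card + (B1.card + B2.card) := by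
      rw [hF]
      exact (card_union_le _ _).trans (Nat.add_le_add_left (card_union_le _ _) _)
    have h2 : (F.card : ℝ) ≤ A.card + (B1.card + B2.card) := by exact_mod_cast h1
    have h3 : (A.card : ℝ) ≤ K / 2 := by
      refine hAc.trans (le_of_eq ?_)
      rw [hK, hL2, hL]
      ring
    linarith
  -- the forms
  obtain ⟨k, hk⟩ : ∃ k : ℕ, k = F.card := ⟨_, rfl⟩
  obtain ⟨e⟩ : Nonempty (F ≃ Fin k) := ⟨F.equivFin.trans (finCongr hk.symm)⟩
  have hrq : r % q < q := Nat.mod_lt _ hq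
  have hsum : ∑ i : Fin k, (((fun _ => (q : ℤ)) i : ℤ).natAbs : ℝ) /
      (Nat.totient ((fun _ : Fin k => (q : ℤ)) i).natAbs : ℝ) ≤ c₀ * (Real.log X * Real.log (Real.log X)) := by
    simp only [Int.natAbs_natCast, sum_const, card_univ, Fintype.card_fin, nsmul_eq_mul]
    rw [hk]
    have h1 : (q : ℝ) / q.totient = 1 / κ := by rw [hκ, one_div_div]
    rw [h1]
    have h2 : d / 4 * (L * L2) ≤ Real.log X * Real.log (Real.log X) := by
      calc d / 4 * (L * L2) = (d / 2 * L) * (L2 / 2) := by ring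
        _ ≤ _ := mul_le_mul hlogX hloglogX (by linarith) (hdL.le.trans hlogX)
    refine le_trans ?_ (mul_le_mul_of_nonneg_left h2 hc₀.le)
    rw [mul_one_div, div_le_iff₀ hκ0]
    refine hFc.trans ?_
    rw [hK, hc]
    have h3 : 128 ≤ L2 * (κ * c₀ * d) := by
      rwa [div_le_iff₀ (by positivity)] at g2c
    have h4 : 128 * 4 ≤ L * (L2 * (κ * c₀ * d)) := by nlinarith
    have h5 : c₀ * (d / 4 * (L * L2)) * κ = L * (L2 * (κ * c₀ * d)) / 4 := by ring
    have h6 : 5 / 2 * (2 * (c₀ * d / 48) * κ * (L * L2)) = 5 * (L * (L2 * (κ * c₀ * d))) / 48 := by ring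
    rw [h5, h6]
    linarith
  have ha0 : ∀ i : Fin k, (fun _ : Fin k => (q : ℤ)) i ≠ 0 := fun _ => by
    show (q : ℤ) ≠ 0
    exact_mod_cast hq.ne'
  have ha1 : ∀ i : Fin k, (|(fun _ : Fin k => (q : ℤ)) i| : ℝ) ≤ Real.exp (Real.log X ^ 2) := fun _ => by
    have h1 : |((q : ℤ) : ℝ)| = (q : ℝ) := by
      rw [Int.cast_natCast, abs_of_pos hqr]
    show |((q : ℤ) : ℝ)| ≤ _
    rw [h1]
    refine le_trans ?_ hexp
    exact_mod_cast hYq
  have hb1 : ∀ i : Fin k, (|(fun i : Fin k => ((r % q : ℕ) : ℤ) - ((e.symm i : ℕ) : ℤ)) i| : ℝ) ≤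
      Real.exp (Real.log X ^ 2) := by
    intro i
    have h1 : (e.symm i : ℕ) ≤ Y := hFY _ (e.symm i).2
    have h2 : |((r % q : ℕ) : ℤ) - ((e.symm i : ℕ) : ℤ)| ≤ (Y : ℤ) := by
      rw [abs_le]
      constructor <;> omega
    refine le_trans ?_ hexp
    have h3 : ((|((r % q : ℕ) : ℤ) - ((e.symm i : ℕ) : ℤ)| : ℤ) : ℝ) ≤ ((Y : ℤ) : ℝ) := by exact_mod_cast h2
    push_cast at h3 ⊢
    exact h3
  obtain ⟨n, hn1, hn2, hn3⟩ := hlin X hXX₀ k (fun _ => (q : ℤ))
    (fun i => ((r % q : ℕ) : ℤ) - ((e.symm i : ℕ) : ℤ)) ha0 ha1 hb1 hsum ((Y / q : ℕ) : ℤ)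
  have hn0 : 0 ≤ n := by
    have : (0 : ℤ) ≤ ((Y / q : ℕ) : ℤ) := Int.natCast_nonneg _
    omega
  lift n to ℕ using hn0
  have hn1' : Y / q < n := by exact_mod_cast hn1
  have hn2' : n ≤ Y / q + X := by exact_mod_cast hn2
  obtain ⟨N, hN⟩ : ∃ N : ℕ, N = q * n + r % q := ⟨_, rfl⟩
  have hYN : Y < N := by
    have h1 : Y < q * (Y / q + 1) := by
      have h2 := Nat.div_add_mod Y q
      have h3 := Nat.mod_lt Y hq
      rw [mul_add, mul_one]
      omega
    have h4 : q * (Y / q + 1) ≤ q * n := Nat.mul_le_mul_left _ hn1'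
    omega
  have hNup : (N : ℝ) ≤ Y + (Y : ℝ) ^ d := by
    have h1 : q * n ≤ q * (Y / q) + q * X := by
      rw [← mul_add]
      exact Nat.mul_le_mul_left _ hn2'
    have h2 : q * (Y / q) ≤ Y := Nat.mul_div_le _ _
    have h3 : N ≤ Y + q * X + q := by omega
    have h4 : (N : ℝ) ≤ Y + q * X + q := by exact_mod_cast h3
    nlinarith [hXup]
  have hYd : (Y : ℝ) ^ d ≤ Real.sqrt Y := by
    rw [Real.sqrt_eq_rpow]
    exact Real.rpow_le_rpow_of_exponent_le (by linarith) (by linarith)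
  have hN0 : (0 : ℝ) < N := by
    have : (Y : ℝ) < N := by exact_mod_cast hYN
    linarith
  have hs1 : Real.sqrt Y ≤ Real.sqrt N := Real.sqrt_le_sqrt (by exact_mod_cast hYN.le)
  have hs2 : Real.sqrt N ≤ Real.sqrt Y + 1 := by
    rw [Real.sqrt_le_left (by positivity)]
    have h1 : Real.sqrt Y ^ 2 = Y := Real.sq_sqrt hY0.le
    have h2 := Real.sqrt_nonneg (Y : ℝ)
    nlinarith
  have hN2Y : (N : ℝ) ≤ 2 * Y := by linarith
  have hlogN : Real.log N * Real.log (Real.log N) ≤ 2 * (L * L2) := by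
    have h1 : Real.log N ≤ 5 / 4 * L := by
      have h2 : Real.log N ≤ Real.log (2 * Y) := Real.log_le_log hN0 hN2Y
      rw [Real.log_mul (by norm_num) hY0.ne', ← hL] at h2
      have h3 := Real.log_two_lt_d9
      linarith
    have hLN : L ≤ Real.log N := by
      rw [hL]
      exact Real.log_le_log hY0 (by exact_mod_cast hYN.le)
    have h4 : Real.log (Real.log N) ≤ 8 / 5 * L2 := by
      have h5 : Real.log (Real.log N) ≤ Real.log (5 / 4 * L) := Real.log_le_log (by linarith) h1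
      rw [Real.log_mul (by norm_num) (by positivity)] at h5
      have h6 : Real.log L = L2 := by rw [hL, hL2]
      rw [h6] at h5
      have h7 : Real.log (5 / 4 : ℝ) ≤ 1 / 4 := by
        have := Real.log_le_sub_one_of_pos (show (0 : ℝ) < 5 / 4 by norm_num)
        linarith
      linarith
    have h8 : 0 ≤ Real.log (Real.log N) := Real.log_nonneg (by linarith)
    calc Real.log N * Real.log (Real.log N) ≤ (5 / 4 * L) * (8 / 5 * L2) :=
          mul_le_mul h1 h4 h8 (by positivity)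
      _ = 2 * (L * L2) := by ring
  have hkey : ∀ a ∈ F, ¬ (N - a).Prime := by
    intro a ha
    have h1 := hn3 (e ⟨a, ha⟩)
    simp only [Equiv.symm_apply_apply] at h1
    have h2 : (((q : ℤ) * (n : ℤ) + (((r % q : ℕ) : ℤ) - (a : ℤ))).natAbs) = N - a := by
      have h3 : a ≤ N := (hFY a ha).trans hYN.le
      have h4 : (q : ℤ) * (n : ℤ) + (((r % q : ℕ) : ℤ) - (a : ℤ)) = ((N - a : ℕ) : ℤ) := by
        rw [Nat.cast_sub h3, hN]
        push_cast
        ring
      rw [h4, Int.natAbs_natCast]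
    rwa [h2] at h1
  have hmod : N ≡ r [MOD q] := by
    unfold Nat.ModEq
    rw [hN, Nat.mul_add_mod, Nat.mod_mod]
  have heven : Even N := by
    have h1 : N ≡ r [MOD 2] := hmod.of_dvd hqe.two_dvd
    rw [Nat.even_iff] at hr ⊢
    rw [h1, hr]
  refine ⟨N, heven, hmod, hYN, ?_, fun a ha => hkey a (by rw [hF]; exact mem_union_left _ ha), ?_⟩
  · refine hNup.trans ?_
    have := Real.rpow_le_rpow_of_exponent_le (show (1 : ℝ) ≤ Y by linarith) hdδ
    linarith
  · intro p hp hp1 hp2 hor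
    apply hkey
    rw [hF, mem_union, mem_union]
    right
    have hpT : p < T := by
      have h1 : (p : ℝ) < 4 * Real.sqrt Y + 4 := by linarith
      have h2 : p < ⌈4 * Real.sqrt Y + 4⌉₊ := Nat.lt_ceil.2 h1
      omega
    have hKN : c * κ * (Real.log N * Real.log (Real.log N)) ≤ K := by
      rw [hK]
      have := mul_le_mul_of_nonneg_left hlogN (show 0 ≤ c * κ by positivity)
      linarith
    rcases hor with h | h
    · left
      rw [hB1, mem_filter, mem_range]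
      refine ⟨hpT, hp, by linarith, ?_⟩
      have h1 : (((range p).filter (fun r : ℕ => r.Prime ∧ Real.sqrt Y < r)).card : ℝ) ≤ before N p + 1 := by
        exact_mod_cast before_ge Y N p hs2
      linarith
    · right
      rw [hB2, mem_filter, mem_range]
      refine ⟨hpT, hp, by linarith, ?_⟩
      have h1 : (((Ioo p T).filter (fun r : ℕ => r.Prime ∧ (r : ℝ) < 4 * Real.sqrt Y + 4)).card : ℝ) ≤
          after N p + 4 := by
        exact_mod_cast after_ge Y N p T hs1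
      linarith

end Pool.Agent.Results.MP_b454d1_nt.RunsAtTheEndpoints
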